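import Pool.Agent.Lib_MP_331e4f_sp.Tree

/-!
# The recursion
-/

open Finset

set_option linter.unusedSectionVars false

namespace MP331e4fSp

variable {X : Type*} [Fintype X] [DecidableEq X] {V : Type*} [AddCommGroup V]
  {L : Type*} [Field L] [Module L V]

theorem opA_cons (f : List X → V) (x : X) (w : List X) : opA f (x :: w) = ∑ y, f (y :: w) := rfl

theorem opD_o (o : X) (γ : ℕ → X → L) (f : List X → V) (w : List X) :
    opD o γ f (o :: w) = opD o (fun n => γ (n + 1)) (fun u => f (o :: u)) w := by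
  simp only [opD, if_true]

theorem opD_ne {o x : X} (hx : x ≠ o) (γ : ℕ → X → L) (f : List X → V) (w : List X) :
    opD o γ f (x :: w) = γ 0 x • opA (fun u => f (x :: u)) w := by
  rw [opD, if_neg hx]

theorem opA_comb (a b c : L) (f g h : List X → V) (w : List X) :
    opA (fun u => a • f u - b • g u + c • h u) w = a • opA f w - b • opA g w + c • opA h w := by
  cases w with
  | nil => simp [opA]
  | cons x w => simp [opA, sum_add_distrib, sum_sub_distrib, smul_sum]

theorem opA_congr {f g : List X → V} (h : ∀ w ≠ [], f w = g w) (w : List X) :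
    opA f w = opA g w := by
  cases w with
  | nil => rfl
  | cons x w => exact Finset.sum_congr rfl fun y _ => h _ (by simp)

theorem step {p : ℕ} [CharP L p] (hp : 0 < p) (hX : Fintype.card X = p) (o : X) {κ l : L}
    (hκ : κ ≠ 0) (hl : κ + l ≠ 0) (γ : ℕ → X → L) (f h : List X → V)
    (hf : ∀ w ≠ [], κ • f w - l • opA f w + opD o γ f w = h w)
    (hh : ∀ x ≠ o, ∀ w, h (x :: w) = 0) (w : List X) (hw : w ≠ []) :
    (κ ^ 2 / (κ + l)) • f (o :: w) -
      (- (∑ x ∈ univ.erase o, γ 0 x) * l ^ 2 / (κ + l) ^ 2) • opA (fun u => f (o :: u)) w +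
      opD o (fun n => γ (n + 1)) (fun u => f (o :: u)) w = h (o :: w) := by
  obtain ⟨s, hs⟩ : ∃ s : List X → V, ∀ u, s u = ∑ y, f (y :: u) := ⟨_, fun _ => rfl⟩
  obtain ⟨F, hF⟩ : ∃ F : X → List X → V, ∀ x u, F x u = f (x :: u) := ⟨_, fun _ _ => rfl⟩
  obtain ⟨Γ, hΓ⟩ : ∃ Γ : L, Γ = ∑ x ∈ univ.erase o, γ 0 x := ⟨_, rfl⟩
  have hFo : ∀ x, (fun u => f (x :: u)) = F x := fun x => funext fun u => (hF x u).symm
  have E1 : ∀ x ≠ o, ∀ u, κ • F x u - l • s u + γ 0 x • opA (F x) u = 0 := by
    intro x hx u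
    have h1 := hf (x :: u) (by simp)
    rw [hh x hx, opA_cons, opD_ne hx, hFo, ← hF, ← hs] at h1
    exact h1
  have E2 : ∀ x ≠ o, ∀ u, κ • opA (F x) u = l • opA s u := by
    intro x hx u
    have h1 : opA (fun u => κ • F x u - l • s u + γ 0 x • opA (F x) u) u = 0 := by
      rw [opA_congr (g := fun _ => 0) (fun w _ => E1 x hx w)]
      cases u <;> simp [opA]
    rw [opA_comb, opA_opA (L := L) hX, smul_zero, add_zero] at h1
    exact sub_eq_zero.1 h1
  have E3 : ∀ u, (κ * (κ + l)) • s u = κ ^ 2 • F o u - (Γ * l) • opA s u := by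
    intro u
    have h1 : ∀ x ∈ univ.erase o, κ ^ 2 • F x u = (κ * l) • s u - (γ 0 x * l) • opA s u := by
      intro x hx
      have h2 := E1 x (Finset.ne_of_mem_erase hx) u
      have h3 := E2 x (Finset.ne_of_mem_erase hx) u
      linear_combination (norm := module) κ • h2 - (γ 0 x) • h3
    have h2 : ∑ x ∈ univ.erase o, κ ^ 2 • F x u = κ ^ 2 • s u - κ ^ 2 • F o u := by
      rw [hs, ← Finset.smul_sum, ← smul_sub, ← Finset.add_sum_erase univ _ (mem_univ o), ← hF]
      congr 1
      simp only [hF]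
      abel
    rw [Finset.sum_congr rfl h1, Finset.sum_sub_distrib, Finset.sum_const, ← Finset.sum_smul,
      ← Finset.sum_mul, ← hΓ, Finset.card_erase_of_mem (mem_univ o), card_univ, hX] at h2
    have h3 : (p - 1 : ℕ) • (κ * l) • s u = - (κ * l) • s u := by
      rw [← Nat.cast_smul_eq_nsmul L, Nat.cast_sub hp, CharP.cast_eq_zero, smul_smul]
      congr 1
      push_cast
      ring
    rw [h3] at h2
    linear_combination (norm := module) - h2
  have E4 : ∀ u, (κ + l) • opA s u = κ • opA (F o) u := by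
    intro u
    have h1 : opA (fun u => (κ * (κ + l)) • s u - κ ^ 2 • F o u + (Γ * l) • opA s u) u = 0 := by
      rw [opA_congr (g := fun _ => 0) (fun w _ => by rw [E3 w]; abel)]
      cases u <;> simp [opA]
    rw [opA_comb, opA_opA (L := L) hX, smul_zero, add_zero] at h1
    have h2 : κ • ((κ + l) • opA s u - κ • opA (F o) u) = 0 := by
      rw [← h1]; module
    exact sub_eq_zero.1 ((smul_eq_zero.1 h2).resolve_left hκ)
  have E5 := hf (o :: w) (by simp)
  rw [opA_cons, opD_o, ← hs, ← hF] at E5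
  have e3 : s w = (κ * (κ + l))⁻¹ • (κ ^ 2 • F o w - (Γ * l) • opA s w) := by
    rw [← E3, smul_smul, inv_mul_cancel₀ (mul_ne_zero hκ hl), one_smul]
  have e4 : opA s w = (κ + l)⁻¹ • κ • opA (F o) w := by
    rw [← E4, smul_smul, inv_mul_cancel₀ hl, one_smul]
  rw [← E5, e3, e4, ← hΓ, ← hF, hFo]
  match_scalars <;> field_simp <;> ring

theorem nonvanishing {p : ℕ} [CharP L p] (hp : 0 < p) (hX : Fintype.card X = p) (S : Subfield L)
    {o u : X} (hu : u ≠ o) (n : ℕ) : ∀ (κ l : L) (γ : ℕ → X → L) (f : List X → V) (v : V),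
      κ ≠ 0 → l ≠ 0 → l / κ ^ 2 ∈ S → κ / l ∉ S →
      (∀ n, (∑ x ∈ univ.erase o, γ n x) ∈ S ∧ (∑ x ∈ univ.erase o, γ n x) ≠ 0) →
      (∀ w ≠ [], κ • f w - l • opA f w + opD o γ f w =
        if w = List.replicate n o ++ [u] then v else 0) →
      ∃ c : L, c ≠ 0 ∧ f (List.replicate (n + 1) o) = c • v := by
  induction n with
  | zero =>
    intro κ l γ f v hκ hl h1 h2 h3 hf
    obtain ⟨s, hs⟩ : ∃ s : V, s = ∑ y, f [y] := ⟨_, rfl⟩
    have h4 : ∀ x, κ • f [x] - l • s = if x = u then v else 0 := by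
      intro x
      have h5 := hf [x] (by simp)
      have h6 : opD o γ f [x] = 0 := by
        by_cases hx : x = o <;> simp [opD, opA, hx]
      rw [h6, add_zero] at h5
      simp only [opA, List.replicate_zero, List.nil_append, List.cons.injEq, and_true] at h5
      rw [← hs] at h5
      exact h5
    have h5 : κ • s = v := by
      have h6 := Finset.sum_congr rfl (fun x (_ : x ∈ (univ : Finset X)) => h4 x)
      rw [Finset.sum_sub_distrib, ← Finset.smul_sum, ← hs, Finset.sum_const, card_univ, hX,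
        nsmul_zero' (L := L), sub_zero, Finset.sum_ite_eq' univ u, if_pos (mem_univ u)] at h6
      exact h6
    have h6 := h4 o
    rw [if_neg (fun h => hu h.symm), sub_eq_zero] at h6
    refine ⟨l / κ ^ 2, div_ne_zero hl (pow_ne_zero 2 hκ), ?_⟩
    have h7 : f [o] = κ⁻¹ • l • s := by
      rw [← h6, smul_smul, inv_mul_cancel₀ hκ, one_smul]
    change f [o] = _
    rw [h7, ← h5]
    match_scalars
    field_simp
  | succ n ih =>
    intro κ l γ f v hκ hl h1 h2 h3 hf
    have hkl : κ + l ≠ 0 := by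
      intro h
      apply h2
      have : κ / l = -1 := by
        rw [eq_neg_of_add_eq_zero_left h, neg_div, div_self hl]
      rw [this]
      exact S.neg_mem S.one_mem
    obtain ⟨Γ, hΓ⟩ : ∃ Γ : L, Γ = ∑ x ∈ univ.erase o, γ 0 x := ⟨_, rfl⟩
    have hΓS : Γ ∈ S := hΓ ▸ (h3 0).1
    have hΓ0 : Γ ≠ 0 := hΓ ▸ (h3 0).2
    have h4 := step hp hX o hκ hkl γ f
      (fun w => if w = List.replicate (n + 1) o ++ [u] then v else 0) hf (by
        intro x hx w
        rw [if_neg]
        intro h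
        rw [List.replicate_succ, List.cons_append, List.cons.injEq] at h
        exact hx h.1)
    rw [← hΓ] at h4
    obtain ⟨c, hc, h5⟩ := ih (κ ^ 2 / (κ + l)) (-Γ * l ^ 2 / (κ + l) ^ 2) (fun n => γ (n + 1))
      (fun u => f (o :: u)) v (div_ne_zero (pow_ne_zero 2 hκ) hkl)
      (div_ne_zero (mul_ne_zero (neg_ne_zero.2 hΓ0) (pow_ne_zero 2 hl)) (pow_ne_zero 2 hkl))
      (by
        have e : -Γ * l ^ 2 / (κ + l) ^ 2 / (κ ^ 2 / (κ + l)) ^ 2 = -Γ * (l / κ ^ 2) ^ 2 := by
          field_simp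
        rw [e]
        exact S.mul_mem (S.neg_mem hΓS) (S.pow_mem h1 2))
      (by
        have e : κ ^ 2 / (κ + l) / (-Γ * l ^ 2 / (κ + l) ^ 2) =
            -(κ / l + 1) / ((l / κ ^ 2) * Γ) := by
          field_simp
        rw [e]
        intro hmem
        apply h2
        have h6 := S.mul_mem hmem (S.mul_mem h1 hΓS)
        rw [div_mul_cancel₀ _ (mul_ne_zero (div_ne_zero hl (pow_ne_zero 2 hκ)) hΓ0)] at h6
        have h7 := S.sub_mem (S.neg_mem h6) S.one_mem
        have h8 : -(-(κ / l + 1)) - 1 = κ / l := by ring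
        rwa [h8] at h7)
      (fun n => h3 (n + 1))
      (by
        intro w hw
        rw [h4 w hw]
        simp [List.replicate_succ])
    exact ⟨c, hc, h5⟩

end MP331e4fSp
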