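import Mathlib

/-!
# Tree automorphisms, rooted and directed permutations of words
-/

namespace MP331e4fSp

/-- automorphism of the rooted tree of words -/
def IsTreeAut {X : Type*} (f : List X → List X) : Prop :=
  (∀ w, (f w).length = w.length) ∧ ∀ u v, u <+: v → f u <+: f v

/-- the map of words which applies `σ` to the first letter -/
def rooted {X : Type*} (σ : Equiv.Perm X) : List X → List X
  | [] => []
  | x :: w => σ x :: w

/-- the map of words which fixes the ray `o o o ...` and acts below the vertex `o ^ n x`, where
`x ≠ o`, as the rooted permutation `e n x` -/
def directed {X : Type*} [DecidableEq X] (o : X) : (ℕ → X → Equiv.Perm X) → List X → List X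
  | _, [] => []
  | e, x :: w => if x = o then o :: directed o (fun n => e (n + 1)) w else x :: rooted (e 0 x) w

end MP331e4fSp
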