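import Mathlib

/-!
# The finite fields
-/

namespace MP331e4fSp

/-- a finite field `L`, a proper subfield `S` with `r` elements of `S` which are linearly independent
over the prime field, and a matrix representation of `L` over any field of characteristic `p` -/
theorem exists_fields {p : ℕ} (hp : p.Prime) (r : ℕ) (K : Type*) [Field K] [CharP K p] :
    ∃ (L : Type) (_ : Field L) (_ : CharP L p) (S : Subfield L) (ζ : L) (γ : Fin r → L) (d : ℕ)
      (_ : 0 < d) (_ : L →+* Matrix (Fin d) (Fin d) K), ζ ∉ S ∧ (∀ i, γ i ∈ S) ∧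
      ∀ m : Fin r → ℕ, (∀ i, m i < p) → (∑ i, (m i : L) * γ i = 0) → ∀ i, m i = 0 := by
  have : Fact p.Prime := ⟨hp⟩
  obtain ⟨L0, hL0, hL0f, hch, hfr⟩ : ∃ (L0 : Type) (_ : Field L0) (_ : Finite L0) (_ : CharP L0 p),
      ∀ _ : Algebra (ZMod p) L0, r + 1 = Module.finrank (ZMod p) L0 := by
    refine ⟨GaloisField p (r + 1), inferInstance, inferInstance, inferInstance, fun h => ?_⟩
    refine (GaloisField.finrank p (n := r + 1) (Nat.succ_ne_zero r)).symm.trans ?_
    congr!
    exact Subsingleton.elim _ _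
  let _ : Algebra (ZMod p) L0 := ZMod.algebra L0 p
  have hfr' := hfr inferInstance
  let L := FiniteField.Extension L0 p 2
  have hchL : CharP L p := charP_of_injective_algebraMap (algebraMap L0 L).injective p
  obtain ⟨b⟩ : Nonempty (Module.Basis (Fin (r + 1)) (ZMod p) L0) :=
    ⟨(Module.finBasis (ZMod p) L0).reindex (finCongr hfr'.symm)⟩
  refine ⟨L, inferInstance, hchL, (algebraMap L0 L).fieldRange, ?_⟩
  obtain ⟨ζ, hζ⟩ : ∃ ζ : L, ζ ∉ (algebraMap L0 L).fieldRange := by
    by_contra hcon
    push Not at hcon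
    have h1 : Module.finrank L0 L = 2 := FiniteField.finrank_extension L0 p 2
    have h2 : Module.finrank L0 L ≤ 1 := by
      refine finrank_le_one (1 : L) fun w => ?_
      obtain ⟨c, hc⟩ := hcon w
      exact ⟨c, by rw [Algebra.smul_def, mul_one, hc]⟩
    omega
  refine ⟨ζ, fun i => algebraMap L0 L (b i.castSucc), Module.finrank (ZMod p) L,
    Module.finrank_pos,
    ((ZMod.castHom (dvd_refl p) K).mapMatrix).comp
      (Algebra.leftMulMatrix (Module.finBasis (ZMod p) L)).toRingHom, hζ, fun i => ⟨_, rfl⟩, ?_⟩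
  intro m hm h0 i
  have h1 : ∑ i : Fin r, (m i : L0) * b i.castSucc = 0 := by
    apply (algebraMap L0 L).injective
    rw [map_zero, map_sum, ← h0]
    exact Finset.sum_congr rfl fun i _ => by rw [map_mul, map_natCast]
  have h2 := Fintype.linearIndependent_iff.1 (b.linearIndependent.comp Fin.castSucc
    (Fin.castSucc_injective r)) (fun i => (m i : ZMod p)) (by
      rw [← h1]
      refine Finset.sum_congr rfl fun i _ => ?_
      rw [Algebra.smul_def, map_natCast]
      rfl) i
  exact Nat.eq_zero_of_dvd_of_lt ((CharP.cast_eq_zero_iff (ZMod p) p (m i)).1 h2) (hm i)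

end MP331e4fSp
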