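import Pool.Agent.Lib_MP_331e4f_sp.Calc
import Pool.Agent.Lib_MP_331e4f_al.Alg

/-!
# The group algebra of a group containing a rooted permutation and directed permutations
-/

open Finset

set_option linter.unusedSectionVars false

namespace MP331e4fSp

open MP331e4f (aug AugRad)

section orb

variable {K : Type*} [Field K] {G : Type*} [Group G] {X : Type*} [DecidableEq X]

/-- the value at `w` of the image of the delta function at `u` under an element of the group
algebra -/
noncomputable def orb (φ : G →* Equiv.Perm (List X)) (u w : List X) (x : MonoidAlgebra K G) : K :=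
  x.coeff.sum fun g c => if φ g u = w then c else 0

theorem orb_zero (φ : G →* Equiv.Perm (List X)) (u w : List X) :
    orb φ u w (0 : MonoidAlgebra K G) = 0 := by
  simp [orb]

theorem orb_add (φ : G →* Equiv.Perm (List X)) (u w : List X) (x y : MonoidAlgebra K G) :
    orb φ u w (x + y) = orb φ u w x + orb φ u w y := by
  unfold orb
  rw [MonoidAlgebra.coeff_add, Finsupp.sum_add_index']
  · intro g; simp
  · intro g b c; split_ifs <;> simp

theorem orb_sum {ι : Type*} (φ : G →* Equiv.Perm (List X)) (u w : List X) (s : Finset ι)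
    (f : ι → MonoidAlgebra K G) : orb φ u w (∑ i ∈ s, f i) = ∑ i ∈ s, orb φ u w (f i) := by
  classical
  induction s using Finset.induction_on with
  | empty => simp [orb_zero]
  | insert a s ha ih => rw [Finset.sum_insert ha, Finset.sum_insert ha, orb_add, ih]

theorem orb_single (φ : G →* Equiv.Perm (List X)) (u w : List X) (g : G) (c : K) :
    orb φ u w (MonoidAlgebra.single g c) = if φ g u = w then c else 0 := by
  unfold orb
  rw [MonoidAlgebra.coeff_single, Finsupp.sum_single_index]
  simp

theorem orb_single_mul (φ : G →* Equiv.Perm (List X)) (u w : List X) (g : G) (c : K)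
    (x : MonoidAlgebra K G) :
    orb φ u w (MonoidAlgebra.single g c * x) = c * orb φ u ((φ g)⁻¹ w) x := by
  induction x using MonoidAlgebra.induction_linear with
  | zero => simp [orb_zero]
  | add x y hx hy => rw [mul_add, orb_add, hx, hy, orb_add, mul_add]
  | single h d =>
    rw [MonoidAlgebra.single_mul_single, orb_single, orb_single, map_mul, Equiv.Perm.mul_apply,
      mul_ite, mul_zero]
    refine if_congr ?_ rfl rfl
    rw [Equiv.Perm.eq_inv_iff_eq]

/-- matrix of coefficients times a group element -/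
noncomputable def tm {d : ℕ} (C : Matrix (Fin d) (Fin d) K) (g : G) :
    Matrix (Fin d) (Fin d) (MonoidAlgebra K G) := fun i j => MonoidAlgebra.single g (C i j)

/-- the matrix valued function defined by a matrix over the group algebra -/
noncomputable def forb {d : ℕ} (φ : G →* Equiv.Perm (List X)) (u : List X)
    (Y : Matrix (Fin d) (Fin d) (MonoidAlgebra K G)) (w : List X) : Matrix (Fin d) (Fin d) K :=
  fun i j => orb φ u w (Y i j)

theorem forb_tm_mul {d : ℕ} (φ : G →* Equiv.Perm (List X)) (u : List X)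
    (C : Matrix (Fin d) (Fin d) K) (g : G) (Y : Matrix (Fin d) (Fin d) (MonoidAlgebra K G))
    (w : List X) : forb φ u (tm C g * Y) w = C * forb φ u Y ((φ g)⁻¹ w) := by
  ext i j
  rw [Matrix.mul_apply]
  change orb φ u w ((tm C g * Y) i j) = _
  rw [Matrix.mul_apply, orb_sum]
  exact Finset.sum_congr rfl fun k _ => orb_single_mul φ u w g (C i k) (Y k j)

theorem forb_add {d : ℕ} (φ : G →* Equiv.Perm (List X)) (u : List X)
    (Y Z : Matrix (Fin d) (Fin d) (MonoidAlgebra K G)) (w : List X) :
    forb φ u (Y + Z) w = forb φ u Y w + forb φ u Z w := by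
  ext i j
  exact orb_add φ u w (Y i j) (Z i j)

theorem forb_sum {ι : Type*} {d : ℕ} (φ : G →* Equiv.Perm (List X)) (u : List X) (s : Finset ι)
    (Y : ι → Matrix (Fin d) (Fin d) (MonoidAlgebra K G)) (w : List X) :
    forb φ u (∑ i ∈ s, Y i) w = ∑ i ∈ s, forb φ u (Y i) w := by
  ext i j
  rw [Matrix.sum_apply]
  change orb φ u w ((∑ i ∈ s, Y i) i j) = _
  rw [Matrix.sum_apply, orb_sum]
  rfl

theorem forb_one {d : ℕ} (φ : G →* Equiv.Perm (List X)) (u w : List X) :
    forb φ u (1 : Matrix (Fin d) (Fin d) (MonoidAlgebra K G)) w = if w = u then 1 else 0 := by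
  ext i j
  change orb φ u w ((1 : Matrix (Fin d) (Fin d) (MonoidAlgebra K G)) i j) = _
  rw [Matrix.one_apply]
  by_cases hij : i = j
  · rw [if_pos hij, MonoidAlgebra.one_def, orb_single, map_one, Equiv.Perm.one_apply]
    by_cases hw : w = u
    · rw [if_pos hw.symm, if_pos hw, Matrix.one_apply, if_pos hij]
    · rw [if_neg (fun h => hw h.symm), if_neg hw]; rfl
  · rw [if_neg hij, orb_zero]
    by_cases hw : w = u
    · rw [if_pos hw, Matrix.one_apply, if_neg hij]
    · rw [if_neg hw]; rfl

theorem aug_tm {d : ℕ} (C : Matrix (Fin d) (Fin d) K) (g : G) :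
    (aug K G).toRingHom.mapMatrix (tm C g) = C := by
  ext i j
  simp only [RingHom.mapMatrix_apply, Matrix.map_apply, AlgHom.toRingHom_eq_coe, RingHom.coe_coe,
    tm]
  exact MP331e4f.aug_single g (C i j)

end orb

theorem main_lemma {K : Type*} [Field K] {p : ℕ} [CharP K p] (hp : p.Prime) {G : Type*} [Group G]
    (haug : AugRad K G) {X : Type*} [Fintype X] [DecidableEq X] (hX : Fintype.card X = p) (o : X)
    (φ : G →* Equiv.Perm (List X)) (hφ : ∀ g, IsTreeAut (φ g))
    (a : G) (σ : Equiv.Perm X) (hσ : σ ^ p = 1) (hσ1 : σ ≠ 1) (ha : ∀ w, φ a w = rooted σ w)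
    {r : ℕ} (b : Fin r → G) (e : Fin r → ℕ → X → Equiv.Perm X) (he : ∀ i n x, e i n x ^ p = 1)
    (hb : ∀ i w, φ (b i) w = directed o (e i) w) (hne : ∀ n, ∃ i, ∃ x ≠ o, e i n x ≠ 1)
    {L : Type*} [Field L] [CharP L p] (S : Subfield L) (ζ : L) (hζ : ζ ∉ S) (γ : Fin r → L)
    (hγS : ∀ i, γ i ∈ S)
    (hγ : ∀ m : Fin r → ℕ, (∀ i, m i < p) → (∑ i, (m i : L) * γ i = 0) → ∀ i, m i = 0)
    {d : ℕ} (hd : 0 < d) (ρ : L →+* Matrix (Fin d) (Fin d) K) : False := by
  classical
  have hζ0 : ζ ≠ 0 := fun h => hζ (h ▸ S.zero_mem)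
  obtain ⟨u, hu⟩ : ∃ u : X, u ≠ o := by
    obtain ⟨i, x, hx, -⟩ := hne 0
    exact ⟨x, hx⟩
  obtain ⟨M, hM⟩ : ∃ M : Matrix (Fin d) (Fin d) (MonoidAlgebra K G),
      M = tm (ρ ζ) 1 + (∑ k ∈ range p, tm (- ρ (ζ ^ 2)) (a ^ k)⁻¹ +
        ∑ i, ∑ k ∈ range p, tm (ρ (γ i)) (b i ^ k)⁻¹) := ⟨_, rfl⟩
  have hpK : ∀ C : Matrix (Fin d) (Fin d) K, p • C = 0 := by
    intro C
    exact nsmul_zero' (L := K) C
  have haugM : (aug K G).toRingHom.mapMatrix M = ρ ζ := by
    rw [hM, map_add, map_add, map_sum, map_sum, aug_tm]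
    have h1 : ∀ i, (aug K G).toRingHom.mapMatrix (∑ k ∈ range p, tm (ρ (γ i)) (b i ^ k)⁻¹) = 0 := by
      intro i
      rw [map_sum, Finset.sum_congr rfl (fun k _ => aug_tm _ _), Finset.sum_const, card_range, hpK]
    rw [Finset.sum_congr rfl (fun k _ => aug_tm _ _), Finset.sum_const, card_range, hpK,
      Finset.sum_congr rfl (fun i _ => h1 i), Finset.sum_const_zero, add_zero, add_zero]
  obtain ⟨Y, hY⟩ := haug.exists_inv M (by
    rw [haugM]
    exact (IsUnit.mk0 ζ hζ0).map ρ)
  let _ : Module L (Matrix (Fin d) (Fin d) K) := Module.compHom _ ρ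
  have hsm : ∀ (c : L) (C : Matrix (Fin d) (Fin d) K), c • C = ρ c * C := fun _ _ => rfl
  obtain ⟨Γ, hΓ⟩ : ∃ Γ : ℕ → X → L, ∀ n x, Γ n x = ∑ i, γ i * (if e i n x = 1 then (0 : L) else 1) :=
    ⟨_, fun _ _ => rfl⟩
  have hiter : ∀ (g : G) (f : List X → List X) (_ : ∀ w, φ g w = f w) (k : ℕ) (w : List X),
      (φ (g ^ k)⁻¹)⁻¹ w = f^[k] w := by
    intro g f hgf k w
    rw [map_inv, inv_inv, map_pow]
    induction k with
    | zero => rfl
    | succ k ih => rw [pow_succ', Equiv.Perm.mul_apply, ih, hgf, Function.iterate_succ_apply']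
  have hmain : ∀ n : ℕ, ∃ c : L, c ≠ 0 ∧ forb φ (List.replicate n o ++ [u]) Y
      (List.replicate (n + 1) o) = c • (1 : Matrix (Fin d) (Fin d) K) := by
    intro n
    refine nonvanishing hp.pos hX S hu n ζ (ζ ^ 2) Γ _ 1 hζ0 (pow_ne_zero 2 hζ0) ?_ ?_ ?_ ?_
    · rw [div_self (pow_ne_zero 2 hζ0)]; exact S.one_mem
    · intro h
      apply hζ
      have h1 : ζ / ζ ^ 2 = ζ⁻¹ := by field_simp
      rw [h1] at h
      have h2 := S.inv_mem h
      rwa [inv_inv] at h2
    · intro n
      have h1 : ∑ x ∈ univ.erase o, Γ n x =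
          ∑ i, ((((univ.erase o).filter fun x => e i n x ≠ 1).card : ℕ) : L) * γ i := by
        simp only [hΓ]
        rw [Finset.sum_comm]
        refine Finset.sum_congr rfl fun i _ => ?_
        rw [← Finset.mul_sum, mul_comm]
        congr 1
        rw [Finset.card_filter]
        push_cast
        refine Finset.sum_congr rfl fun x _ => ?_
        by_cases h : e i n x = 1 <;> simp [h]
      constructor
      · rw [h1]
        exact S.sum_mem fun i _ => S.mul_mem (natCast_mem S _) (hγS i)
      · rw [h1]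
        intro h2
        obtain ⟨i, x, hx, h3⟩ := hne n
        have h4 := hγ _ (fun i => by
          calc ((univ.erase o).filter fun x => e i n x ≠ 1).card ≤ (univ.erase o : Finset X).card :=
                Finset.card_filter_le _ _
            _ < (univ : Finset X).card := Finset.card_erase_lt_of_mem (mem_univ o)
            _ = p := by rw [card_univ, hX]) h2 i
        rw [Finset.card_eq_zero] at h4
        exact absurd (Finset.mem_filter.2 ⟨Finset.mem_erase.2 ⟨hx, mem_univ x⟩, h3⟩)
          (by rw [h4]; exact Finset.notMem_empty x)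
    · intro w _
      have h1 : forb φ (List.replicate n o ++ [u]) (M * Y) w =
          if w = List.replicate n o ++ [u] then 1 else 0 := by
        rw [hY, forb_one]
      rw [← h1, hM, add_mul, add_mul, forb_add, forb_add, Finset.sum_mul, Finset.sum_mul, forb_sum,
        forb_sum, forb_tm_mul]
      have h2 : ∑ k ∈ range p, forb φ (List.replicate n o ++ [u])
          (tm (- ρ (ζ ^ 2)) (a ^ k)⁻¹ * Y) w =
          - (ζ ^ 2 • opA (forb φ (List.replicate n o ++ [u]) Y) w) := by
        rw [hsm, ← neg_mul, ← sum_rooted L hp hX hσ hσ1, Finset.mul_sum]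
        refine Finset.sum_congr rfl fun k _ => ?_
        rw [forb_tm_mul, hiter a _ ha]
      have h3 : ∑ i, forb φ (List.replicate n o ++ [u])
          ((∑ k ∈ range p, tm (ρ (γ i)) (b i ^ k)⁻¹) * Y) w =
          opD o Γ (forb φ (List.replicate n o ++ [u]) Y) w := by
        have h4 : Γ = fun n x => ∑ i ∈ univ, γ i * (if e i n x = 1 then (0 : L) else 1) := by
          funext n x; exact hΓ n x
        rw [h4, ← opD_sum]
        refine Finset.sum_congr rfl fun i _ => ?_
        rw [← sum_directed hp hX o w (e i) (he i), Finset.sum_mul, forb_sum, hsm, Finset.mul_sum]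
        refine Finset.sum_congr rfl fun k _ => ?_
        rw [forb_tm_mul, hiter (b i) _ (hb i)]
      rw [h2, h3, map_one, inv_one, Equiv.Perm.one_apply, hsm]
      abel
  -- for every `n` there is an element of the support mapping `o ^ n u` to `o ^ (n + 1)`
  have hex : ∀ n : ℕ, ∃ g : G, (∃ i j, (Y i j).coeff g ≠ 0) ∧
      φ g (List.replicate n o ++ [u]) = List.replicate (n + 1) o := by
    intro n
    obtain ⟨c, hc, h1⟩ := hmain n
    by_contra hcon
    push Not at hcon
    have h2 : forb φ (List.replicate n o ++ [u]) Y (List.replicate (n + 1) o) = 0 := by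
      ext i j
      change orb φ (List.replicate n o ++ [u]) (List.replicate (n + 1) o) (Y i j) = 0
      unfold orb
      refine Finset.sum_eq_zero fun g hg => ?_
      exact if_neg (hcon g ⟨i, j, Finsupp.mem_support_iff.1 hg⟩)
    rw [h2, hsm, mul_one] at h1
    have h3 : IsUnit (ρ c) := (IsUnit.mk0 c hc).map ρ
    rw [← h1] at h3
    have : Nonempty (Fin d) := ⟨⟨0, hd⟩⟩
    have : Nontrivial (Matrix (Fin d) (Fin d) K) := inferInstance
    exact not_isUnit_zero h3
  choose g hg1 hg2 using hex
  have hfin : (Set.range g).Finite := by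
    refine Set.Finite.subset (s := ⋃ i, ⋃ j, ((Y i j).coeff.support : Set G)) ?_ ?_
    · exact Set.finite_iUnion fun i => Set.finite_iUnion fun j => Finset.finite_toSet _
    · rintro _ ⟨n, rfl⟩
      obtain ⟨i, j, h⟩ := hg1 n
      exact Set.mem_iUnion.2 ⟨i, Set.mem_iUnion.2 ⟨j, Finsupp.mem_support_iff.2 h⟩⟩
  have key : ∀ m n : ℕ, m < n → g m ≠ g n := by
    intro m n hmn heq
    have h1 := hg2 m
    rw [heq] at h1
    have h2 : List.replicate (m + 1) o <+: List.replicate n o ++ [u] := by
      obtain ⟨k, hk⟩ : ∃ k, n = (m + 1) + k := ⟨n - (m + 1), by omega⟩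
      have h3 : List.replicate n o ++ [u] =
          List.replicate (m + 1) o ++ (List.replicate k o ++ [u]) := by
        rw [← List.append_assoc, ← List.replicate_add, ← hk]
      rw [h3]
      exact List.prefix_append _ _
    have h3 := (hφ (g n)).2 _ _ h2
    rw [hg2 n] at h3
    have h4 : φ (g n) (List.replicate (m + 1) o) = List.replicate (m + 1) o := by
      rw [List.eq_replicate_iff]
      refine ⟨by rw [(hφ (g n)).1, List.length_replicate], fun x hx => ?_⟩
      exact List.eq_of_mem_replicate (h3.subset hx)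
    have h5 := (φ (g n)).injective (h1.trans h4.symm)
    have h6 : u ∈ List.replicate (m + 1) o := by
      rw [← h5]; simp
    exact hu (List.eq_of_mem_replicate h6)
  refine Set.infinite_range_of_injective (f := g) ?_ hfin
  intro m n hmn
  rcases lt_trichotomy m n with h | h | h
  · exact absurd hmn (key m n h)
  · exact h
  · exact absurd hmn.symm (key n m h)

end MP331e4fSp
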