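import Pool.Agent.Lib_MP_331e4f_sp.Defs

/-!
# Rooted and directed permutations of words, and the recursion for `κ - λ α + Σ γ_i T_i`
-/

open Finset

set_option linter.unusedSectionVars false

namespace MP331e4fSp

section perm

variable {X : Type*} [Fintype X] [DecidableEq X]

theorem sum_pow {p : ℕ} (hp : p.Prime) (hX : Fintype.card X = p) {σ : Equiv.Perm X}
    (h1 : σ ^ p = 1) (h2 : σ ≠ 1) {V : Type*} [AddCommGroup V] (F : X → V) (x : X) :
    ∑ k ∈ range p, F ((σ ^ k) x) = ∑ y, F y := by
  have : Fact p.Prime := ⟨hp⟩
  have ho : orderOf σ = p := orderOf_eq_prime h1 h2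
  have hc : σ.IsCycle := Equiv.Perm.isCycle_of_prime_order'' (by rw [hX]; exact hp) (by rw [ho, hX])
  have hs : σ.support = univ := by
    apply Finset.eq_univ_of_card
    rw [← hc.orderOf, ho, hX]
  have hmv : ∀ y, σ y ≠ y := fun y => by
    rw [← Equiv.Perm.mem_support, hs]; exact mem_univ y
  have hinj : Set.InjOn (fun k => (σ ^ k) x) (range p : Finset ℕ) := by
    have key : ∀ k l : ℕ, k < l → l < p → (σ ^ k) x ≠ (σ ^ l) x := by
      intro k l hkl hl h
      have h3 : (σ ^ (l - k)) x = x := by
        have h4 : σ ^ l = σ ^ k * σ ^ (l - k) := by rw [← pow_add]; congr 1; omega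
        rw [h4, Equiv.Perm.mul_apply] at h
        exact ((σ ^ k).injective h).symm
      have h5 : σ ^ (l - k) = 1 := hc.pow_eq_one_iff.2 ⟨x, hmv x, h3⟩
      have h6 := orderOf_dvd_of_pow_eq_one h5
      rw [ho] at h6
      have := Nat.le_of_dvd (by omega) h6
      omega
    intro k hk l hl hkl
    simp only [coe_range, Set.mem_Iio] at hk hl
    rcases lt_trichotomy k l with h | h | h
    · exact absurd hkl (key k l h hl)
    · exact h
    · exact absurd hkl.symm (key l k h hk)
  have himg : (range p).image (fun k => (σ ^ k) x) = univ := by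
    apply Finset.eq_univ_of_card
    rw [Finset.card_image_of_injOn hinj, card_range, hX]
  rw [← himg, Finset.sum_image (fun a ha b hb h => hinj ha hb h)]

end perm

section ops

variable {X : Type*} [Fintype X] [DecidableEq X] {V : Type*} [AddCommGroup V]

/-- sum over the first letter -/
def opA (f : List X → V) : List X → V
  | [] => 0
  | _ :: w => ∑ y, f (y :: w)

/-- the sum of the powers of directed permutations, with coefficients `γ n x` -/
def opD {L : Type*} [Field L] [Module L V] (o : X) : (ℕ → X → L) → (List X → V) → List X → V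
  | _, _, [] => 0
  | γ, f, x :: w => if x = o then opD o (fun n => γ (n + 1)) (fun u => f (o :: u)) w else
      γ 0 x • opA (fun u => f (x :: u)) w

theorem rooted_iterate (σ : Equiv.Perm X) (k : ℕ) (x : X) (w : List X) :
    (rooted σ)^[k] (x :: w) = (σ ^ k) x :: w := by
  induction k with
  | zero => rfl
  | succ k ih =>
    rw [Function.iterate_succ_apply', ih, pow_succ']
    rfl

theorem rooted_iterate_nil (σ : Equiv.Perm X) (k : ℕ) : (rooted σ)^[k] [] = [] := by
  induction k with
  | zero => rfl
  | succ k ih => rw [Function.iterate_succ_apply', ih]; rfl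

theorem directed_iterate_nil (o : X) (e : ℕ → X → Equiv.Perm X) (k : ℕ) :
    (directed o e)^[k] [] = [] := by
  induction k with
  | zero => rfl
  | succ k ih => rw [Function.iterate_succ_apply', ih]; rfl

theorem directed_iterate_o (o : X) (e : ℕ → X → Equiv.Perm X) (k : ℕ) (w : List X) :
    (directed o e)^[k] (o :: w) = o :: (directed o (fun n => e (n + 1)))^[k] w := by
  induction k with
  | zero => rfl
  | succ k ih =>
    rw [Function.iterate_succ_apply', ih, Function.iterate_succ_apply']
    simp [directed]

theorem directed_iterate_ne (o : X) (e : ℕ → X → Equiv.Perm X) (k : ℕ) {x : X} (hx : x ≠ o)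
    (w : List X) : (directed o e)^[k] (x :: w) = x :: (rooted (e 0 x))^[k] w := by
  induction k with
  | zero => rfl
  | succ k ih =>
    rw [Function.iterate_succ_apply', ih, Function.iterate_succ_apply']
    simp [directed, hx]

variable {L : Type*} [Field L] [Module L V]

theorem nsmul_zero' {p : ℕ} [CharP L p] (v : V) : p • v = 0 := by
  rw [← Nat.cast_smul_eq_nsmul L, CharP.cast_eq_zero, zero_smul]

theorem sum_rooted (L : Type*) [Field L] [Module L V] {p : ℕ} [CharP L p] (hp : p.Prime)
    (hX : Fintype.card X = p) {σ : Equiv.Perm X}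
    (h1 : σ ^ p = 1) (h2 : σ ≠ 1) (f : List X → V) (w : List X) :
    ∑ k ∈ range p, f ((rooted σ)^[k] w) = opA f w := by
  cases w with
  | nil =>
    simp only [rooted_iterate_nil, opA, sum_const, card_range]
    exact nsmul_zero' (L := L) _
  | cons x w =>
    simp only [rooted_iterate, opA]
    exact sum_pow hp hX h1 h2 (fun y => f (y :: w)) x

open Classical in
theorem sum_directed {p : ℕ} [CharP L p] (hp : p.Prime) (hX : Fintype.card X = p) (o : X)
    (w : List X) : ∀ (e : ℕ → X → Equiv.Perm X) (_ : ∀ n x, e n x ^ p = 1) (f : List X → V),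
    ∑ k ∈ range p, f ((directed o e)^[k] w) =
      opD o (fun n x => if e n x = 1 then (0 : L) else 1) f w := by
  induction w with
  | nil =>
    intro e he f
    simp only [directed_iterate_nil, opD, sum_const, card_range]
    exact nsmul_zero' (L := L) _
  | cons x w ih =>
    intro e he f
    by_cases hx : x = o
    · subst hx
      simp only [directed_iterate_o, opD, if_true]
      exact ih (fun n => e (n + 1)) (fun n x => he (n + 1) x) (fun u => f (x :: u))
    · simp only [directed_iterate_ne o e _ hx, opD, if_neg hx]
      by_cases h : e 0 x = 1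
      · rw [if_pos h, zero_smul, h]
        have h1 : ∀ k : ℕ, (rooted (1 : Equiv.Perm X))^[k] w = w := by
          intro k
          cases w with
          | nil => exact rooted_iterate_nil _ _
          | cons y w => rw [rooted_iterate, one_pow]; rfl
        simp only [h1, sum_const, card_range]
        exact nsmul_zero' (L := L) _
      · rw [if_neg h, one_smul]
        exact sum_rooted L hp hX (he 0 x) h (fun u => f (x :: u)) w

theorem opA_smul_sum {ι : Type*} (s : Finset ι) (c : ι → L) (f : ι → List X → V) (w : List X) :
    opA (fun u => ∑ i ∈ s, c i • f i u) w = ∑ i ∈ s, c i • opA (f i) w := by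
  cases w with
  | nil => simp [opA]
  | cons x w =>
    simp only [opA]
    rw [Finset.sum_comm]
    exact Finset.sum_congr rfl fun i _ => Finset.smul_sum.symm

theorem opD_sum {ι : Type*} (s : Finset ι) (o : X) (w : List X) : ∀ (c : ι → L)
    (γ : ι → ℕ → X → L) (f : List X → V),
    ∑ i ∈ s, c i • opD o (γ i) f w = opD o (fun n x => ∑ i ∈ s, c i * γ i n x) f w := by
  induction w with
  | nil => intro c γ f; simp [opD]
  | cons x w ih =>
    intro c γ f
    by_cases hx : x = o
    · simp only [opD, if_pos hx]
      exact ih c (fun i n => γ i (n + 1)) (fun u => f (o :: u))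
    · simp only [opD, if_neg hx, smul_smul]
      rw [← Finset.sum_smul]

theorem opA_opA {p : ℕ} [CharP L p] (hX : Fintype.card X = p) (f : List X → V) (w : List X) :
    opA (opA f) w = 0 := by
  cases w with
  | nil => rfl
  | cons x w =>
    simp only [opA, sum_const, card_univ, hX]
    exact nsmul_zero' (L := L) _

end ops

end MP331e4fSp
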